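import Pool.Agent.Y272.LC.Stm

/-! Rays and inverse branches in the slit plane. -/

set_option autoImplicit false

open Complex Filter Topology Metric Set MeasureTheory

namespace Pool.Agent.Y232.LC

open Pool.Agent.H712R2 Pool.Agent.H713R2 Pool.Agent.H713R2.AR Pool.Agent.Y272.LC

lemma zt_re (s t : ℝ) : (zt s t).re = s := by simp [zt]

lemma zt_im (s t : ℝ) : (zt s t).im = 2 * Real.pi * t := by simp [zt]

lemma roots_finite (d : ℕ) (hd : 0 < d) : {x : ℂ | x ^ d = 1}.Finite := by
  refine (Polynomial.nthRootsFinset d (1 : ℂ)).finite_toSet.subset ?_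
  intro x hx
  exact (Polynomial.mem_nthRootsFinset hd 1).2 hx

theorem cb : St_Cb := by
  intro d Φ hd hB c θ G hE g hg y i X Y h1 h2 hXc hYc hfar hall
  have hd0 : (0 : ℝ) < d := by exact_mod_cast (by omega : 0 < d)
  have hd2 : (2 : ℝ) ≤ d := by exact_mod_cast hd
  have hG0 := hE.G0
  have hGd : G / d < G := by
    rw [div_lt_iff₀ hd0]
    nlinarith
  -- the ray does not meet the slit
  have step1 : ∀ u : ℝ, 0 ≤ u → Y u ∉ Sl Φ c θ G := by
    rintro u hu ⟨s, hs, hYs⟩
    have hgs : green d c 0 < (zt s θ).re := by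
      rw [hE.crit, zt_re]
      linarith
    have e1 : u = s := by
      have h3 := hB.grn c (zt s θ) hgs
      rw [← hYs, (hall u hu).2.1, zt_re] at h3
      exact h3
    subst e1
    have h4 := (hfar u (by linarith)).2
    rw [hYs] at h4
    have hgs' : green d c 0 < (zt u (d * y)).re := by
      rw [hE.crit, zt_re]
      linarith
    obtain ⟨k, hk⟩ := hB.inj c _ _ hgs' hgs h4.symm
    have h5 := congrArg Complex.im hk
    have h6 : 2 * Real.pi * (d * y) = 2 * Real.pi * θ + k * (2 * Real.pi) := by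
      rw [zt_im, Complex.add_im, zt_im] at h5
      simpa using h5
    have hpi := Real.pi_pos
    have h7 : d * y = θ + k := by
      have h8 : 2 * Real.pi * (d * y - (θ + k)) = 0 := by linarith
      rcases mul_eq_zero.1 h8 with h9 | h9
      · exfalso; linarith
      · linarith
    have h8 : (i : ℝ) < k := by linarith
    have h9 : (k : ℝ) < i + 1 := by linarith
    have h10 : i < k := by exact_mod_cast h8
    have h11 : k < i + 1 := by exact_mod_cast h9
    omega
  have step1' : ∀ s : ℝ, 0 ≤ s → Y (d * s) ∉ Sl Φ c θ G := fun s hs => step1 _ (by positivity)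
  have hc : c ∈ Sl Φ c θ G := ⟨G, le_rfl, hE.val.symm⟩
  have hX0 : ∀ s : ℝ, 0 ≤ s → X s ≠ 0 := by
    intro s hs h0
    have h3 := (hall s hs).2.2
    rw [h0] at h3
    have h4 : fc d c 0 = c := by
      unfold fc
      rw [zero_pow (by omega), zero_add]
    rw [h4] at h3
    exact step1' s hs (by rw [← h3]; exact hc)
  obtain ⟨q, hq⟩ : ∃ q : ℝ → ℂ, q = fun s => g i (Y (d * s)) / X s := ⟨_, rfl⟩
  have hqc : ContinuousOn q (Ici 0) := by
    rw [hq]
    have h3 : ContinuousOn (fun s : ℝ => Y (d * s)) (Ici 0) :=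
      hYc.comp (by fun_prop) (fun s hs => mul_nonneg hd0.le hs)
    have h4 : ContinuousOn (fun s : ℝ => g i (Y (d * s))) (Ici 0) :=
      (hg.hol i).continuousOn.comp h3 (fun s hs => step1' s hs)
    exact h4.div hXc (fun s hs => hX0 s hs)
  have hqr : ∀ s ∈ Ici (0 : ℝ), q s ∈ {x : ℂ | x ^ d = 1} := by
    intro s hs
    have hs' : 0 ≤ s := hs
    have h3 := hg.inv i _ (step1' s hs')
    have h4 := (hall s hs').2.2
    unfold fc at h3 h4
    have h5 : (X s) ^ d ≠ 0 := pow_ne_zero _ (hX0 s hs')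
    show q s ^ d = 1
    rw [hq]
    simp only
    rw [div_pow, div_eq_one_iff_eq h5]
    have h6 : (g i (Y (d * s))) ^ d + c = (X s) ^ d + c := by rw [h3, h4]
    exact add_right_cancel h6
  have hdisc : DiscreteTopology {x : ℂ | x ^ d = 1} := by
    have := (roots_finite d (by omega)).to_subtype
    infer_instance
  have hone : q (G + 1) = 1 := by
    rw [hq]
    simp only
    have h3 := (hfar (d * (G + 1)) (by nlinarith)).2
    have h4 := hg.ray i (d * (G + 1)) (d * y) (by nlinarith) h1 h2
    rw [h3, h4, mul_div_cancel_left₀ _ hd0.ne', mul_div_cancel_left₀ _ hd0.ne',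
      (hfar (G + 1) (by linarith)).1]
    refine div_self ?_
    rw [← (hfar (G + 1) (by linarith)).1]
    exact hX0 _ (by linarith)
  intro s hs
  refine ⟨step1' s hs, ?_⟩
  have h3 : q s = q (G + 1) :=
    isPreconnected_Ici.constant_of_mapsTo (isDiscrete_iff_discreteTopology.2 hdisc) hqc hqr (show s ∈ Ici (0 : ℝ) from hs)
      (show G + 1 ∈ Ici (0 : ℝ) from by simp only [mem_Ici]; linarith)
  rw [hone, hq] at h3
  simp only at h3
  exact (div_eq_one_iff_eq (hX0 s hs)).1 h3

theorem t (_ : St_Grn) : St_Cb := cb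

end Pool.Agent.Y232.LC
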